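import Pool.Agent.helper32.QS.Spec

/-!
# Project qs: (MP_e82547_al), ES: existence of the subgroup `S`
-/

set_option autoImplicit false
set_option linter.unusedSectionVars false

open scoped BigOperators commutatorElement

namespace QS

section Lemmas

variable {H : Type} [Group H] [Finite H] (A : Subgroup H) [A.Normal]

theorem ES_comm_iff (x y : H) :
    ⁅x, y⁆ ∈ A ↔ (x : H ⧸ A) * (y : H ⧸ A) = (y : H ⧸ A) * (x : H ⧸ A) := by
  rw [← QuotientGroup.eq_one_iff, commutatorElement_def]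
  simp only [QuotientGroup.mk_mul, QuotientGroup.mk_inv]
  constructor
  · intro h
    have h1 := congrArg (fun z => z * (y : H ⧸ A) * (x : H ⧸ A)) h
    simpa [mul_assoc] using h1
  · intro h
    rw [h]
    group

/-- the subgroup of the elements commuting modulo `A` with all elements of `T` -/
def ES_cm (T : Set H) : Subgroup H where
  carrier := {x | ∀ t ∈ T, ⁅x, t⁆ ∈ A}
  one_mem' := by
    intro t _
    rw [commutatorElement_one_left]
    exact A.one_mem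
  mul_mem' := by
    intro a b ha hb t ht
    rw [ES_comm_iff]
    have h1 := (ES_comm_iff A a t).1 (ha t ht)
    have h2 := (ES_comm_iff A b t).1 (hb t ht)
    rw [QuotientGroup.mk_mul, mul_assoc, h2, ← mul_assoc, h1, mul_assoc]
  inv_mem' := by
    intro a ha t ht
    rw [ES_comm_iff]
    have h1 := (ES_comm_iff A a t).1 (ha t ht)
    rw [QuotientGroup.mk_inv, inv_mul_eq_iff_eq_mul, ← mul_assoc, h1, mul_inv_cancel_right]

theorem ES_cm_mem (T : Set H) (x : H) : x ∈ ES_cm A T ↔ ∀ t ∈ T, ⁅x, t⁆ ∈ A := Iff.rfl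

theorem ES_symm (x y : H) (h : ⁅x, y⁆ ∈ A) : ⁅y, x⁆ ∈ A := by
  rw [← commutatorElement_inv]
  exact A.inv_mem h

/-- the minimal normal subgroups modulo `A` inside `C` -/
def ES_M (A C Y : Subgroup H) : Prop :=
  Y.Normal ∧ A ≤ Y ∧ ¬ Y ≤ A ∧ Y ≤ C ∧
    ∀ Z : Subgroup H, Z.Normal → A ≤ Z → Z ≤ Y → Z ≤ A ∨ Y ≤ Z

omit [A.Normal] in
theorem ES_exists (C Y₀ : Subgroup H) (h1 : Y₀.Normal) (h2 : A ≤ Y₀) (h3 : ¬ Y₀ ≤ A)
    (h4 : Y₀ ≤ C) : ∃ Y, ES_M A C Y ∧ Y ≤ Y₀ := by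
  obtain ⟨Y, hY1, hY2⟩ := exists_minimal_le_of_wellFoundedLT
    (fun Y : Subgroup H => Y.Normal ∧ A ≤ Y ∧ ¬ Y ≤ A) Y₀ ⟨h1, h2, h3⟩
  refine ⟨Y, ⟨hY2.prop.1, hY2.prop.2.1, hY2.prop.2.2, hY1.trans h4, ?_⟩, hY1⟩
  intro Z hZ1 hZ2 hZ3
  by_cases hZ : Z ≤ A
  · exact Or.inl hZ
  · exact Or.inr (hY2.le_of_le ⟨hZ1, hZ2, hZ⟩ hZ3)

theorem ES_b [Group.IsSolvable H] (C Y : Subgroup H) (hY : ES_M A C Y) :
    ∀ x ∈ Y, ∀ y ∈ Y, ⁅x, y⁆ ∈ A := by
  obtain ⟨h1, h2, h3, h4, h5⟩ := hY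
  have hle : ⁅Y, Y⁆ ≤ Y := Subgroup.commutator_le_left Y Y
  have hsup : ⁅Y, Y⁆ ⊔ A ≤ A := by
    rcases h5 (⁅Y, Y⁆ ⊔ A) inferInstance le_sup_right (sup_le hle h2) with h | h
    · exact h
    · exfalso
      have hne : Y.map (QuotientGroup.mk' A) ≠ ⊥ := by
        intro hbot
        rw [Subgroup.map_eq_bot_iff, QuotientGroup.ker_mk'] at hbot
        exact h3 hbot
      have hlt := Group.IsSolvable.commutator_lt_of_ne_bot hne
      have h6 : Y.map (QuotientGroup.mk' A) ≤ (⁅Y, Y⁆ ⊔ A).map (QuotientGroup.mk' A) :=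
        Subgroup.map_mono h
      rw [Subgroup.map_sup, Subgroup.map_commutator] at h6
      have h7 : A.map (QuotientGroup.mk' A) = ⊥ := by
        rw [Subgroup.map_eq_bot_iff, QuotientGroup.ker_mk']
      rw [h7, sup_bot_eq] at h6
      exact absurd hlt (not_lt_of_ge h6)
  intro x hx y hy
  exact hsup ((le_sup_left : ⁅Y, Y⁆ ≤ ⁅Y, Y⁆ ⊔ A) (Subgroup.commutator_mem_commutator hx hy))

theorem ES_ell [Group.IsSolvable H] (C Y : Subgroup H) (hY : ES_M A C Y) :
    ∃ ℓ : ℕ, ℓ.Prime ∧ ∀ y ∈ Y, y ^ ℓ ∈ A := by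
  have hcomm := ES_b A C Y hY
  obtain ⟨h1, h2, h3, h4, h5⟩ := hY
  have hne : Nat.card (Y.map (QuotientGroup.mk' A)) ≠ 1 := by
    intro hc
    rw [Subgroup.card_eq_one, Subgroup.map_eq_bot_iff, QuotientGroup.ker_mk'] at hc
    exact h3 hc
  obtain ⟨ℓ, hℓ, hdvd⟩ := Nat.exists_prime_and_dvd hne
  refine ⟨ℓ, hℓ, ?_⟩
  have : Fact ℓ.Prime := ⟨hℓ⟩
  obtain ⟨⟨z, hz⟩, hz2⟩ := exists_prime_orderOf_dvd_card' ℓ hdvd
  obtain ⟨y, hy, rfl⟩ := hz
  -- the subgroup
  let Z : Subgroup H :=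
    { carrier := {y | y ∈ Y ∧ y ^ ℓ ∈ A}
      one_mem' := ⟨Y.one_mem, by rw [one_pow]; exact A.one_mem⟩
      mul_mem' := by
        rintro a b ⟨ha1, ha2⟩ ⟨hb1, hb2⟩
        refine ⟨Y.mul_mem ha1 hb1, ?_⟩
        have h6 : Commute (a : H ⧸ A) (b : H ⧸ A) := (ES_comm_iff A a b).1 (hcomm a ha1 b hb1)
        rw [← QuotientGroup.eq_one_iff, QuotientGroup.mk_pow, QuotientGroup.mk_mul, h6.mul_pow,
          ← QuotientGroup.mk_pow, ← QuotientGroup.mk_pow, (QuotientGroup.eq_one_iff _).2 ha2,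
          (QuotientGroup.eq_one_iff _).2 hb2, one_mul]
      inv_mem' := by
        rintro a ⟨ha1, ha2⟩
        exact ⟨Y.inv_mem ha1, by rw [inv_pow]; exact A.inv_mem ha2⟩ }
  have hZn : Z.Normal := by
    refine ⟨fun a ha g => ⟨h1.conj_mem a ha.1 g, ?_⟩⟩
    rw [conj_pow]
    exact (inferInstance : A.Normal).conj_mem _ ha.2 g
  have hZA : A ≤ Z := fun a ha => ⟨h2 ha, A.pow_mem ha ℓ⟩
  have hZY : Z ≤ Y := fun a ha => ha.1
  rcases h5 Z hZn hZA hZY with h | h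
  · exfalso
    have hy2 : y ^ ℓ ∈ A := by
      rw [← QuotientGroup.eq_one_iff, QuotientGroup.mk_pow]
      have h8 := pow_orderOf_eq_one (⟨QuotientGroup.mk' A y, ⟨y, hy, rfl⟩⟩ :
        Y.map (QuotientGroup.mk' A))
      rw [hz2] at h8
      exact congrArg Subtype.val h8
    have hy3 : y ∈ A := h ⟨hy, hy2⟩
    have hy4 : (⟨QuotientGroup.mk' A y, ⟨y, hy, rfl⟩⟩ : Y.map (QuotientGroup.mk' A)) = 1 := by
      apply Subtype.ext
      exact (QuotientGroup.eq_one_iff _).2 hy3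
    rw [hy4, orderOf_one] at hz2
    exact hℓ.one_lt.ne hz2
  · intro a ha
    exact (h ha).2

theorem ES_c [Group.IsSolvable H] (C Y Y' : Subgroup H) (hY : ES_M A C Y) (hY' : ES_M A C Y') :
    ∀ x ∈ Y, ∀ y ∈ Y', ⁅x, y⁆ ∈ A := by
  have hY1 : Y.Normal := hY.1
  have hY1' : Y'.Normal := hY'.1
  have hc : ∀ x ∈ Y, ∀ y ∈ Y', ⁅x, y⁆ ∈ Y ⊓ Y' := by
    intro x hx y hy
    exact Subgroup.commutator_le_inf Y Y' (Subgroup.commutator_mem_commutator hx hy)
  rcases hY.2.2.2.2 (Y ⊓ Y') inferInstance (le_inf hY.2.1 hY'.2.1) inf_le_left with h | h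
  · intro x hx y hy
    exact h (hc x hx y hy)
  · have h1 : Y ≤ Y' := h.trans inf_le_right
    rcases hY'.2.2.2.2 Y hY1 hY.2.1 h1 with h2 | h2
    · exact absurd h2 hY.2.2.1
    · intro x hx y hy
      exact ES_b A C Y hY x hx y (h2 hy)

theorem ES_d [Group.IsSolvable H] (C : Subgroup H) :
    ∀ x ∈ sSup {Y | ES_M A C Y}, ∀ y ∈ sSup {Y | ES_M A C Y}, ⁅x, y⁆ ∈ A := by
  have h1 : ∀ Y', ES_M A C Y' → sSup {Y | ES_M A C Y} ≤ ES_cm A (Y' : Set H) := by
    intro Y' hY'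
    apply sSup_le
    intro Y hY x hx t ht
    exact ES_c A C Y Y' hY hY' x hx t ht
  have h2 : sSup {Y | ES_M A C Y} ≤ ES_cm A ((sSup {Y | ES_M A C Y} : Subgroup H) : Set H) := by
    apply sSup_le
    intro Y' hY' y hy t ht
    exact ES_symm A t y (h1 Y' hY' ht y hy)
  exact h2

end Lemmas

/-- the scalar of an element of `SA`, as an injective homomorphism -/
theorem ES_scalar (k U H : Type) [Field k] [AddCommGroup U] [Module k U] [Group H]
    [DistribMulAction H U] (hnt : Nontrivial U) (hf : Fai H U) :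
    ∃ sc : SA k U H →* kˣ, Function.Injective sc := by
  obtain ⟨u0, hu0⟩ := exists_ne (0 : U)
  have huniq : ∀ c d : kˣ, (∀ u : U, (c : k) • u = (d : k) • u) → c = d := by
    intro c d h
    have h1 := h u0
    rw [← sub_eq_zero, ← sub_smul, smul_eq_zero] at h1
    rcases h1 with h1 | h1
    · exact Units.ext (sub_eq_zero.1 h1)
    · exact absurd h1 hu0
  choose sc hsc using fun a : SA k U H => a.2
  refine ⟨⟨⟨sc, ?_⟩, ?_⟩, ?_⟩
  · apply huniq
    intro u
    rw [← hsc]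
    simp
  · intro a b
    apply huniq
    intro u
    have h1 := hsc (a * b) u
    rw [← h1, Subgroup.coe_mul, mul_smul, hsc b, hsc a, Units.val_mul, mul_smul]
  · intro a b hab
    have hab' : sc a = sc b := hab
    have h1 : ((a : H)⁻¹ * (b : H)) = 1 := by
      apply hf
      intro v
      rw [mul_smul, hsc b, ← hab', ← hsc a, inv_smul_smul]
    apply Subtype.ext
    exact (inv_mul_eq_one.1 h1)

/-- the homomorphism `s ↦ ⁅c, s⁆` -/
theorem ES_chi {H : Type} [Group H] (A C S : Subgroup H) (hSC : S ≤ C)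
    (hcen : ∀ a ∈ A, ∀ c ∈ C, a * c = c * a) (c : H) (hc : c ∈ C) (hcS : ∀ s ∈ S, ⁅c, s⁆ ∈ A)
    [(A.subgroupOf S).Normal] :
    ∃ χ : S ⧸ A.subgroupOf S →* A, ∀ s : S, ((χ (s : S ⧸ A.subgroupOf S) : A) : H) = ⁅c, (s : H)⁆ := by
  let φ : S →* A :=
    { toFun := fun s => ⟨⁅c, (s : H)⁆, hcS s s.2⟩
      map_one' := by
        apply Subtype.ext
        simp
      map_mul' := by
        intro s t
        apply Subtype.ext
        simp only [Subgroup.coe_mul]
        have h1 := hcen _ (hcS t t.2) (s : H) (hSC s.2)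
        simp only [commutatorElement_def] at h1 ⊢
        calc c * ((s : H) * t) * c⁻¹ * ((s : H) * t)⁻¹
            = (c * s * c⁻¹) * (c * t * c⁻¹ * (t : H)⁻¹) * (s : H)⁻¹ := by group
          _ = (c * s * c⁻¹) * ((s : H)⁻¹ * (s * (c * t * c⁻¹ * (t : H)⁻¹))) * (s : H)⁻¹ := by group
          _ = (c * s * c⁻¹) * ((s : H)⁻¹ * ((c * t * c⁻¹ * (t : H)⁻¹) * s)) * (s : H)⁻¹ := by rw [h1]
          _ = _ := by group }
  refine ⟨QuotientGroup.lift (A.subgroupOf S) φ ?_, ?_⟩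
  · intro s hs
    rw [Subgroup.mem_subgroupOf] at hs
    apply Subtype.ext
    show ⁅c, (s : H)⁆ = 1
    rw [commutatorElement_eq_one_iff_mul_comm]
    exact (hcen _ hs c hc).symm
  · intro s
    rfl

/-- the number of the homomorphisms to a subgroup of `kˣ` -/
theorem ES_card (hHOM : HOM_stmt) (X : Type) [Group X] [Finite X] (hX : ∀ a b : X, a * b = b * a)
    (k : Type) [Field k] (A : Type) [Group A] (sc : A →* kˣ) (hsc : Function.Injective sc) :
    Finite (X →* A) ∧ Nat.card (X →* A) ≤ Nat.card X := by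
  rename_i g hfin0 f0 gA
  let cg : CommGroup X := { g with mul_comm := hX }
  obtain ⟨hfin, hcard⟩ := hHOM X k
  have hinj1 : Function.Injective (fun f : X →* A => sc.comp f) := by
    intro f g hfg
    ext x
    have h1 := DFunLike.congr_fun hfg x
    exact hsc h1
  exact ⟨Finite.of_injective _ hinj1, (Nat.card_le_card_of_injective _ hinj1).trans hcard⟩

/-- the whole construction for abstract `A`, `C` -/
theorem ES_main {H : Type} [Group H] [Finite H] [Group.IsSolvable H] (A C : Subgroup H)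
    (hAn : A.Normal) (hCn : C.Normal) (hAC : A ≤ C) (hne : ¬ C ≤ A)
    (hcen : ∀ a ∈ A, ∀ c ∈ C, a * c = c * a)
    (hmaxi : ∀ B : Subgroup H, B.Normal → A ≤ B → (∀ x ∈ B, ∀ y ∈ B, x * y = y * x) → B ≤ A)
    (k : Type) [Field k] (sc : A →* kˣ) (hsc : Function.Injective sc) (hHOM : HOM_stmt) :
    ∃ S : Subgroup H, S.Normal ∧ A ≤ S ∧ S ≤ C ∧ ¬ S ≤ A ∧ (∀ x ∈ S, ∀ y ∈ S, ⁅x, y⁆ ∈ A) ∧
      (∀ x ∈ S, (∀ y ∈ S, x * y = y * x) → x ∈ A) ∧
      (∀ c ∈ C, (∀ s ∈ S, ⁅c, s⁆ ∈ A) → c ∈ S) ∧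
      ∀ h : H, ¬ (∀ s ∈ S, ⁅h, s⁆ ∈ A) → ∃ (Y : Subgroup H) (ℓ : ℕ), ES_M A C Y ∧ Y ≤ S ∧
        ℓ.Prime ∧ (∀ y ∈ Y, y ^ ℓ ∈ A) ∧ ∃ y ∈ Y, ⁅h, y⁆ ∉ A := by
  set S : Subgroup H := sSup {Y | ES_M A C Y} with hS
  have hSn : S.Normal := Subgroup.sSup_normal _ (fun Y hY => hY.1)
  have hle : ∀ Y, ES_M A C Y → Y ≤ S := fun Y hY => le_sSup hY
  obtain ⟨Y1, hY1, -⟩ := ES_exists A C C hCn hAC hne le_rfl
  have hAS : A ≤ S := hY1.2.1.trans (hle Y1 hY1)
  have hSC : S ≤ C := sSup_le (fun Y hY => hY.2.2.2.1)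
  have hSA : ¬ S ≤ A := fun h => hY1.2.2.1 ((hle Y1 hY1).trans h)
  have hcomm : ∀ x ∈ S, ∀ y ∈ S, ⁅x, y⁆ ∈ A := ES_d A C
  have hcent : ∀ x ∈ S, (∀ y ∈ S, x * y = y * x) → x ∈ A := by
    intro x hx hxy
    refine hmaxi (S ⊓ Subgroup.centralizer (S : Set H)) ?_ ?_ ?_ ?_
    · have : (Subgroup.centralizer (S : Set H)).Normal := inferInstance
      infer_instance
    · intro a ha
      refine Subgroup.mem_inf.2 ⟨hAS ha, Subgroup.mem_centralizer_iff.2 ?_⟩
      intro s hs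
      exact (hcen a ha s (hSC hs)).symm
    · rintro x ⟨hx1, hx2⟩ y ⟨hy1, hy2⟩
      exact ((Subgroup.mem_centralizer_iff.1 hx2) y hy1).symm
    · refine Subgroup.mem_inf.2 ⟨hx, Subgroup.mem_centralizer_iff.2 ?_⟩
      intro s hs
      exact (hxy s hs).symm
  have hY0 : ∀ c ∈ C, (∀ s ∈ S, c * s = s * c) → c ∈ A := by
    by_contra hcon
    push Not at hcon
    obtain ⟨c, hc, hcs, hcA⟩ := hcon
    have hn : (C ⊓ Subgroup.centralizer (S : Set H)).Normal := inferInstance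
    obtain ⟨Y, hY, hYle⟩ := ES_exists A C (C ⊓ Subgroup.centralizer (S : Set H)) hn
      (by
        intro a ha
        refine Subgroup.mem_inf.2 ⟨hAC ha, Subgroup.mem_centralizer_iff.2 ?_⟩
        intro s hs
        exact (hcen a ha s (hSC hs)).symm)
      (by
        intro h
        refine hcA (h (Subgroup.mem_inf.2 ⟨hc, Subgroup.mem_centralizer_iff.2 ?_⟩))
        intro s hs
        exact (hcs s hs).symm) inf_le_left
    apply hY.2.2.1
    intro y hy
    refine hcent y (hle Y hY hy) ?_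
    intro s hs
    exact ((Subgroup.mem_centralizer_iff.1 (hYle hy).2) s hs).symm
  refine ⟨S, hSn, hAS, hSC, hSA, hcomm, hcent, ?_, ?_⟩
  · -- self
    have hsn : (A.subgroupOf S).Normal := inferInstance
    let X := S ⧸ A.subgroupOf S
    have hXc : ∀ a b : X, a * b = b * a := by
      intro a b
      induction a using QuotientGroup.induction_on with | H a => ?_
      induction b using QuotientGroup.induction_on with | H b => ?_
      show ((a * b : S) : X) = ((b * a : S) : X)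
      rw [QuotientGroup.eq, Subgroup.mem_subgroupOf]
      have h1 := hcomm _ (S.inv_mem b.2) _ (S.inv_mem a.2)
      simpa [commutatorElement_def, mul_assoc] using h1
    obtain ⟨hfin2, hcard2⟩ := ES_card hHOM X hXc k A sc hsc
    choose χ hχ using fun s : S => ES_chi A C S hSC hcen (s : H) (hSC s.2) (hcomm (s : H) s.2)
    have hinj2 : Function.Injective (fun x : X => χ (Quotient.out x)) := by
      intro x y hxy
      have h1 : ((Quotient.out x : S) : X) = ((Quotient.out y : S) : X) := by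
        rw [QuotientGroup.eq, Subgroup.mem_subgroupOf]
        apply hcent _ (Subtype.coe_prop _)
        intro s hs
        have h2 := hχ (Quotient.out x) ⟨s, hs⟩
        have h3 := hχ (Quotient.out y) ⟨s, hs⟩
        have hxy' : χ (Quotient.out x) = χ (Quotient.out y) := hxy
        rw [hxy', h3] at h2
        simp only [commutatorElement_def, mul_left_inj] at h2
        have h4 := congrArg (fun z => ((Quotient.out x : S) : H)⁻¹ * z * ((Quotient.out y : S) : H)) h2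
        simp only [Subgroup.coe_mul, Subgroup.coe_inv]
        simpa [mul_assoc] using h4
      rwa [QuotientGroup.out_eq', QuotientGroup.out_eq'] at h1
    have hbij := hinj2.bijective_of_nat_card_le hcard2
    intro c hc hcs
    obtain ⟨χc, hχc⟩ := ES_chi A C S hSC hcen c hc hcs
    obtain ⟨x, hx⟩ := hbij.2 χc
    have h5 : ((Quotient.out x : S) : H)⁻¹ * c ∈ A := by
      apply hY0 _ (C.mul_mem (C.inv_mem (hSC (Subtype.coe_prop _))) hc)
      intro s hs
      have h2 := hχ (Quotient.out x) ⟨s, hs⟩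
      have h3 := hχc ⟨s, hs⟩
      have hx' : χ (Quotient.out x) = χc := hx
      rw [hx', h3] at h2
      simp only [commutatorElement_def, mul_left_inj] at h2
      have h4 := congrArg (fun z => ((Quotient.out x : S) : H)⁻¹ * z * c) h2
      simpa [mul_assoc] using h4
    have h6 := S.mul_mem (Subtype.coe_prop (Quotient.out x : S)) (hAS h5)
    rwa [mul_inv_cancel_left] at h6
  · -- gen
    intro h hh
    by_contra hcon
    push Not at hcon
    apply hh
    have h1 : S ≤ ES_cm A ({h} : Set H) := by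
      apply sSup_le
      intro Y hY y hy t ht
      rw [Set.mem_singleton_iff] at ht
      subst ht
      obtain ⟨ℓ, hℓ1, hℓ2⟩ := ES_ell A C Y hY
      exact ES_symm A _ _ (hcon Y ℓ hY (hle Y hY) hℓ1 hℓ2 y hy)
    intro s hs
    exact ES_symm A _ _ (h1 hs h rfl)

theorem ES (hK2 : K2_stmt) (hK3 : K3_stmt) (hHOM : HOM_stmt) : ES_stmt := by
  intro k U H _ _ _ _ _ _ _ _ hD hne
  obtain ⟨hAn, hCn, hAC, -, -⟩ := hK2 k U H hD
  obtain ⟨-, -, -, hcen⟩ := hK3 k U H hD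
  obtain ⟨sc, hsc⟩ := ES_scalar k U H hD.nt hD.faith
  have hsolv : Group.IsSolvable H := hD.solv
  obtain ⟨S, h1, h2, h3, h4, h5, h6, h7, h8⟩ := ES_main (SA k U H) (SC k U H) hAn hCn hAC hne hcen
    hD.maxi k sc hsc hHOM
  refine ⟨S, h1, h2, h3, h4, h5, h6, h7, ?_⟩
  intro h hh
  obtain ⟨Y, ℓ, hY, hYS, hℓ, hexp, hy⟩ := h8 h hh
  exact ⟨Y, ℓ, ⟨hY.1, hY.2.1, hY.2.2.1, hYS, hY.2.2.2.2, hℓ, hexp⟩, hy⟩

end QS
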